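import Pool.Agent.H708Z.GSLines

set_option autoImplicit false

namespace Pool.Agent.Results.MP_27ff1b_co.LinesGS

/-- A line of an affine space: an affine subspace whose direction has dimension one. -/
def IsLine {E : Type} [AddCommGroup E] [Module ℝ E] (L : AffineSubspace ℝ E) : Prop :=
  Module.finrank ℝ L.direction = 1

/-- The intersection graph of a family of affine subspaces: two different members are adjacent
when they share a point. -/
def interGraph {E : Type} [AddCommGroup E] [Module ℝ E] {n : ℕ} (L : Fin n → AffineSubspace ℝ E) :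
    SimpleGraph (Fin n) :=
  SimpleGraph.fromRel (fun i j => ∃ x : E, x ∈ L i ∧ x ∈ L j)

/-- The Gyarfas-Sumner conjecture holds for intersection graphs of lines in `ℝ^d`. -/
theorem result :
    ∀ d : ℕ, 1 ≤ d → ∀ (m : ℕ) (F : SimpleGraph (Fin m)), F.IsAcyclic →
      ∃ f : ℕ → ℕ, ∀ (n : ℕ) (L : Fin n → AffineSubspace ℝ (EuclideanSpace ℝ (Fin d))),
        Function.Injective L → (∀ i, IsLine (L i)) →
        IsEmpty (F ↪g interGraph L) →
        (interGraph L).chromaticNumber ≤ (f (interGraph L).cliqueNum : ℕ∞) := by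
  intro d _ m F hF
  choose c hc using fun k => Pool.Agent.H708Z.GS.gs_lines d hF k
  refine ⟨fun k => c (k + 1), fun n L _ hL h1 => ?_⟩
  refine SimpleGraph.Colorable.chromaticNumber_le
    (hc _ _ _ L hL (fun v w hvw => ?_) (not_nonempty_iff.2 h1) ?_)
  · rw [interGraph, SimpleGraph.fromRel_adj]
    constructor
    · rintro ⟨-, h | ⟨x, h1, h2⟩⟩
      · exact h
      · exact ⟨x, h2, h1⟩
    · exact fun h => ⟨hvw, Or.inl h⟩
  · intro s hs
    have := hs.isClique.card_le_cliqueNum
    rw [hs.card_eq] at this
    omega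

end Pool.Agent.Results.MP_27ff1b_co.LinesGS
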